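import Pool.Agent.H7.Bir.Main
import Pool.Agent.AD.P.Main

/-!
# H14 TF Bir: the properties of the Green–Griffiths–Lang conjecture, with one-dimensional subvarieties only

`bir_curves`: the properties are birationally invariant.  `four_of`: from a set `D` of the variety which contains all non-constant entire curves.
-/

set_option autoImplicit false

open Topology Filter MvPolynomial

noncomputable section

namespace Pool.Agent.H14.TF

open Pool.Agent.H17 (PN VanishesAt HolomorphicInto puncturedDisc vanishesAt_mk_iff ZariskiClosedIn)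
open Pool.Agent.H17GT (coordFun)
open Pool.Agent.H17LG.Variety (FunField IsLogGeneralType)
open Pool.Agent.H62.FC (Homog)
open Pool.Agent.H17R (coordFun_ne_zero_iff)
open Pool.Agent.H17EF (projVar)
open Pool.Agent.H7.Bir (exists_isBir badForm not_bad_iff IsBir vanishesAt_rmap rmap vals exists_comp isGT_of_equiv exists_sub punctured_open pn_identity)

variable {N M : ℕ}

/-- The properties of the Green–Griffiths–Lang conjecture for the closed subvariety `X` of `ℙ^N` given by `P`, with the exceptional set `Ξ`; the last one for the subvarieties of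
dimension one. -/
structure FourCurves (P : Ideal (MvPolynomial (Fin (N + 1)) ℂ)) [P.IsPrime] (Ξ : Set (PN N)) : Prop where
  /-- the set `Ξ` is Zariski closed in `X` and different from `X` -/
  properClosed : ZariskiClosedIn (projVar P) Ξ ∧ Ξ ≠ projVar P
  /-- `X` is of general type -/
  generalType : ∀ w, 1 ≤ w → (∃ z : Fin w → FunField P, IsTranscendenceBasis ℂ z) →
    IsLogGeneralType (K := FunField P) (k := w) fun _ => False
  /-- every holomorphic map from the punctured disc to `X` which is not a map into `Ξ` extends to a holomorphic map from the disc to `ℙ^N` -/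
  picard : ∀ f : ℂ → PN N, HolomorphicInto f puncturedDisc → (∀ z ∈ puncturedDisc, f z ∈ projVar P) →
    (∃ z ∈ puncturedDisc, f z ∉ Ξ) →
    ∃ g : ℂ → PN N, HolomorphicInto g (Metric.ball 0 1) ∧ ∀ z ∈ puncturedDisc, g z = f z
  /-- every non-constant entire curve in `X` lies in `Ξ` -/
  brody : ∀ f : ℂ → PN N, HolomorphicInto f Set.univ → (∀ z, f z ∈ projVar P) → (∃ z w, f z ≠ f w) → ∀ z, f z ∈ Ξ
  /-- every closed subvariety of `X` of dimension one which is not contained in `Ξ` is of general type -/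
  strongly : ∀ (Q : Ideal (MvPolynomial (Fin (N + 1)) ℂ)) [Q.IsPrime], Homog Q → P ≤ Q → ¬ projVar Q ⊆ Ξ →
    (∃ z : Fin 1 → FunField Q, IsTranscendenceBasis ℂ z) → IsLogGeneralType (K := FunField Q) (k := 1) fun _ => False

/-- **Birational invariance.** -/
theorem bir_curves {P : Ideal (MvPolynomial (Fin (N + 1)) ℂ)} [P.IsPrime] (hP : Homog P)
    (hdim : ∃ (w : ℕ) (z : Fin (w + 1) → FunField P), IsTranscendenceBasis ℂ z)
    {P' : Ideal (MvPolynomial (Fin (M + 1)) ℂ)} [hPp' : P'.IsPrime] (hP' : Homog P') (e : FunField P' ≃ₐ[ℂ] FunField P)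
    {Ξ : Set (PN N)} (hΞ : FourCurves P Ξ) : ∃ Ξ' : Set (PN M), FourCurves P' Ξ' := by
  obtain ⟨w, z, hz⟩ := hdim
  obtain ⟨i, hi⟩ := Pool.Agent.H92.GT.Proj.exists_coordFun_ne_zero P z hz
  obtain ⟨i', hi'⟩ := Pool.Agent.H92.GT.Proj.exists_coordFun_ne_zero P' (e.symm ∘ z) (e.symm.isTranscendenceBasis hz)
  obtain ⟨D, D', α, γ, h⟩ := exists_isBir e hi hi'
  obtain ⟨S, hS, hSΞ⟩ := hΞ.properClosed.1
  set b : MvPolynomial (Fin (M + 1)) ℂ := badForm α γ i i' with hb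
  have hbP : b ∉ P' := by
    intro hcon
    rcases hPp'.mem_or_mem hcon with h1 | h1
    · exact h.hj' h1
    · rcases hPp'.mem_or_mem h1 with h2 | h2
      · exact h.hγ h2
      · exact h.hα h2
  set S' : Set (MvPolynomial (Fin (M + 1)) ℂ) := {R | ∃ T ∈ S, R = b * aeval γ T} with hS'
  have hS'hom : ∀ R ∈ S', ∃ n, R.IsHomogeneous n := by
    rintro R ⟨T, hT, rfl⟩
    obtain ⟨n, hn⟩ := hS T hT
    exact ⟨_, h.bad_homog.mul (hn.aeval γ h.homγ)⟩
  set Ξ' : Set (PN M) := {y | y ∈ projVar P' ∧ ∀ R ∈ S', VanishesAt R y} with hΞ'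
  -- points outside of the exceptional set
  have key : ∀ y ∈ projVar P', y ∉ Ξ' → ¬ VanishesAt b y ∧ rmap γ y ∉ Ξ := by
    intro y hy hyΞ
    obtain ⟨R, ⟨T, hT, rfl⟩, hR⟩ : ∃ R ∈ S', ¬ VanishesAt R y := by
      by_contra hcon
      push Not at hcon
      exact hyΞ ⟨hy, hcon⟩
    unfold VanishesAt at hR
    rw [map_mul, mul_eq_zero, not_or] at hR
    refine ⟨hR.1, fun hmem => hR.2 ?_⟩
    obtain ⟨n, hn⟩ := hS T hT
    obtain ⟨hv, -, -⟩ := h.comp_eq hy hR.1
    rw [hSΞ] at hmem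
    exact (vanishesAt_rmap hv hn).1 (hmem.2 T hT)
  have hcoordP' : ∃ i, (X i : MvPolynomial (Fin (M + 1)) ℂ) ∉ P' := ⟨i', h.hj'⟩
  refine ⟨Ξ', ⟨⟨S', hS'hom, rfl⟩, ?_⟩, ?_, ?_, ?_, ?_⟩
  · -- proper
    intro heq
    obtain ⟨x, hx, hxΞ⟩ : ∃ x ∈ projVar P, x ∉ Ξ := by
      by_contra hcon
      push Not at hcon
      apply hΞ.properClosed.2
      apply Set.Subset.antisymm
      · rw [hSΞ]
        exact fun x hx => hx.1
      · exact hcon
    obtain ⟨T, hT, hTx⟩ : ∃ T ∈ S, ¬ VanishesAt T x := by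
      by_contra hcon
      push Not at hcon
      apply hxΞ
      rw [hSΞ]
      exact ⟨hx, hcon⟩
    obtain ⟨n, hn⟩ := hS T hT
    have hTP : T ∉ P := fun h1 => hTx (hx T h1 n hn)
    have h1 : b * aeval γ T ∉ P' := by
      intro hcon
      rcases hPp'.mem_or_mem hcon with h2 | h2
      · exact hbP h2
      · exact hTP ((h.maps n T hn).1 h2)
    obtain ⟨y, hy, hyb⟩ := Pool.Agent.H17EF.exists_point hP' hcoordP' h1 (h.bad_homog.mul (hn.aeval γ h.homγ))
    rw [← heq] at hy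
    exact hyb (hy.2 _ ⟨T, hT, rfl⟩)
  · -- general type
    intro w hw hzw
    obtain ⟨z', hz'⟩ := hzw
    exact isGT_of_equiv e.symm (hΞ.generalType w hw ⟨e ∘ z', e.isTranscendenceBasis hz'⟩)
  · -- Picard
    rintro f hf hfX ⟨z₀, hz₀, hfz₀⟩
    obtain ⟨h1, h2⟩ := key _ (hfX z₀ hz₀) hfz₀
    obtain ⟨g, hg, hgX, hg0, hgn⟩ := h.lift punctured_open Pool.Agent.H36.BP.preconnected_puncturedDisc hf hfX hz₀ h1
    obtain ⟨G, hG, hGg⟩ := hΞ.picard g hg hgX ⟨z₀, hz₀, by rw [hg0]; exact h2⟩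
    have hz₀' : z₀ ∈ Metric.ball (0 : ℂ) 1 := hz₀.1
    obtain ⟨k, hk⟩ : ∃ k, ¬ VanishesAt (α k) (G z₀) := by
      by_contra hcon
      push Not at hcon
      rw [hGg z₀ hz₀] at hcon
      exact hgn.self_of_nhds.1 (funext hcon)
    obtain ⟨F, hF, hF1, -⟩ := exists_comp h.homα Metric.isOpen_ball (convex_ball (0 : ℂ) 1).isPreconnected hG hz₀' hk
    refine ⟨F, hF, ?_⟩
    refine pn_identity Pool.Agent.H36.BP.preconnected_puncturedDisc (fun z hz => hF z hz.1) hf hz₀ ?_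
    filter_upwards [hgn, punctured_open.mem_nhds hz₀] with z h3 h4
    rw [hF1 z h4.1 (by rw [hGg z h4]; exact h3.1), hGg z h4, h3.2]
  · -- Brody
    intro f hf hfX hne z₀
    by_contra hfz₀
    obtain ⟨h1, h2⟩ := key _ (hfX z₀) hfz₀
    obtain ⟨g, hg, hgX, hg0, hgn⟩ := h.lift isOpen_univ isPreconnected_univ hf (fun z _ => hfX z) (Set.mem_univ z₀) h1
    have hconst : ∀ z w, g z = g w := by
      by_contra hcon
      push Not at hcon
      have h3 := hΞ.brody g hg (fun z => hgX z (Set.mem_univ z)) hcon z₀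
      rw [hg0] at h3
      exact h2 h3
    have h3 : ∀ᶠ z in 𝓝 z₀, f z = (fun _ => f z₀) z := by
      filter_upwards [hgn] with z h4
      rw [← h4.2, hconst z z₀, hgn.self_of_nhds.2]
    have hc : HolomorphicInto (fun _ : ℂ => f z₀) Set.univ := by
      intro z _
      exact ⟨fun _ => (f z₀).rep, analyticAt_const, Eventually.of_forall fun _ => ⟨(f z₀).rep_nonzero, (f z₀).mk_rep.symm⟩⟩
    have h4 := pn_identity isPreconnected_univ hf hc (Set.mem_univ z₀) h3
    obtain ⟨z, w, hzw⟩ := hne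
    exact hzw ((h4 z (Set.mem_univ z)).trans (h4 w (Set.mem_univ w)).symm)
  · -- strongly
    intro Q' _ hQ' hPQ hsub hzw
    obtain ⟨y, hyQ, hyΞ⟩ := Set.not_subset.1 hsub
    have hyP : y ∈ projVar P' := fun R hR n hRn => hyQ R (hPQ hR) n hRn
    obtain ⟨h1, h2⟩ := key y hyP hyΞ
    obtain ⟨h3, h4, h5⟩ := not_bad_iff.1 h1
    obtain ⟨hv, -, -⟩ := h.comp_eq hyP h1
    obtain ⟨Q, hQp, hQ, hPQ', ⟨e'⟩, hmem⟩ := exists_sub hP h hPQ (fun hc => h3 (hyQ _ hc _ (isHomogeneous_X ℂ i')))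
      (fun hc => h4 (hyQ _ hc _ (h.homγ i))) (fun hc => h5 (hyQ _ hc _ ((h.homα i').aeval γ h.homγ)))
    obtain ⟨z', hz'⟩ := hzw
    refine isGT_of_equiv e' (hΞ.strongly Q hQ hPQ' ?_ ⟨e'.symm ∘ z', e'.symm.isTranscendenceBasis hz'⟩)
    intro hcon
    apply h2
    apply hcon
    intro R hR n hRn
    rw [vanishesAt_rmap hv hRn]
    exact hyQ _ ((hmem n R hRn).1 hR) _ (hRn.aeval γ h.homγ)

/-- the Zariski closure of the set `D` in `X` -/
def closureIn (P : Ideal (MvPolynomial (Fin (N + 1)) ℂ)) (D : Set (PN N)) : Set (PN N) :=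
  {x | x ∈ projVar P ∧ ∀ (Q : MvPolynomial (Fin (N + 1)) ℂ) (e : ℕ), Q.IsHomogeneous e → (∀ y ∈ D, VanishesAt Q y) → VanishesAt Q x}

theorem closureIn_closed (P : Ideal (MvPolynomial (Fin (N + 1)) ℂ)) (D : Set (PN N)) : ZariskiClosedIn (projVar P) (closureIn P D) := by
  refine ⟨{Q | (∃ e, Q.IsHomogeneous e) ∧ ∀ y ∈ D, VanishesAt Q y}, fun Q hQ => hQ.1, ?_⟩
  ext x
  constructor
  · rintro ⟨h1, h2⟩
    refine ⟨h1, ?_⟩
    rintro Q ⟨⟨e, he⟩, hQ⟩
    exact h2 Q e he hQ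
  · rintro ⟨h1, h2⟩
    exact ⟨h1, fun Q e he hQ => h2 Q ⟨⟨e, he⟩, hQ⟩⟩

theorem subset_closureIn {P : Ideal (MvPolynomial (Fin (N + 1)) ℂ)} {D : Set (PN N)} (hD : D ⊆ projVar P) : D ⊆ closureIn P D :=
  fun x hx => ⟨hD hx, fun _ _ _ hQ => hQ x hx⟩

/-- the four properties from a set which contains all non-constant entire curves -/
theorem four_of {P : Ideal (MvPolynomial (Fin (N + 1)) ℂ)} [P.IsPrime] {D : Set (PN N)} (hD : D ⊆ projVar P)
    (hproper : ∃ (Q : MvPolynomial (Fin (N + 1)) ℂ) (e : ℕ), Q.IsHomogeneous e ∧ (∀ x ∈ D, VanishesAt Q x) ∧ ∃ x ∈ projVar P, ¬ VanishesAt Q x)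
    {n : ℕ} (hdim : ∃ z : Fin n → FunField P, IsTranscendenceBasis ℂ z) (hgt : IsLogGeneralType (K := FunField P) (k := n) fun _ => False)
    (hpicard : ∀ f : ℂ → PN N, HolomorphicInto f puncturedDisc → (∀ z ∈ puncturedDisc, f z ∈ projVar P) → (∃ z ∈ puncturedDisc, f z ∉ D) →
      ∃ g : ℂ → PN N, HolomorphicInto g (Metric.ball 0 1) ∧ ∀ z ∈ puncturedDisc, g z = f z)
    (hbrody : ∀ f : ℂ → PN N, HolomorphicInto f Set.univ → (∀ z, f z ∈ projVar P) → (∃ z w, f z ≠ f w) → ∀ z, f z ∈ D) :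
    FourCurves P (closureIn P D) := by
  have hbr : ∀ f : ℂ → PN N, HolomorphicInto f Set.univ → (∀ z, f z ∈ projVar P) → (∃ z w, f z ≠ f w) → ∀ z, f z ∈ closureIn P D :=
    fun f h1 h2 h3 z => subset_closureIn hD (hbrody f h1 h2 h3 z)
  refine ⟨⟨closureIn_closed P D, ?_⟩, ?_, ?_, hbr, ?_⟩
  · intro h0
    obtain ⟨Q, e, he, hQ, x, hx, hQx⟩ := hproper
    rw [← h0] at hx
    exact hQx (hx.2 Q e he hQ)
  · intro w _ hw
    obtain ⟨z, hz⟩ := hdim
    obtain ⟨z', hz'⟩ := hw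
    have h1 := hz.lift_cardinalMk_eq_trdeg
    have h2 := hz'.lift_cardinalMk_eq_trdeg
    rw [← h1] at h2
    have h4 : w = n := by simpa using h2
    subst h4
    exact hgt
  · intro f h1 h2 ⟨z, hz, hzD⟩
    exact hpicard f h1 h2 ⟨z, hz, fun h => hzD (subset_closureIn hD h)⟩
  · intro Q _ hQ hPQ hsub hz
    exact Pool.Agent.AD.P.strongly_one (closureIn_closed P D) hbr Q hQ hPQ hsub hz

end Pool.Agent.H14.TF
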