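import Pool.Agent.H14.TF.Defs
import Pool.Agent.AD.P.Bridge
import Pool.Agent.H19T.Defs

/-!
# H14 TF Bridge: algebraic sections of `K_X^m(-1)` as analytic forms

* `toTForm`: the section as a `TForm` on the cone in the Euclidean space.
* `exists_tform`: if the canonical bundle is ample there are forms without common zero.
-/

set_option autoImplicit false

open MvPolynomial Topology Filter

namespace Pool.Agent.H14.TF

open Pool.Agent.H36.BP (EN)
open Pool.Agent.H14.PP (IsCone CurveAt Tan)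
open Pool.Agent.H13.SM (conTan cone)
open Pool.Agent.H17EF (LE coneE)
open Pool.Agent.AD (Vd)
open Pool.Agent.AD.P (conTan_of_tan eval_smul_of_homog exists_ne analyticAt_fderiv_apply analyticAt_eval_map)
open Pool.Agent.H19T (TForm TNoZero)

variable {N n : ℕ} {P : Ideal (MvPolynomial (Fin (N + 1)) ℂ)}

theorem minors_comb {ι R : Type*} [CommRing R] (v : Fin n → ι → R) (A : Matrix (Fin n) (Fin n) R) :
    minors (fun i => ∑ j, A i j • v j) = A.det • minors v := by
  funext p
  rw [Pi.smul_apply, smul_eq_mul]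
  unfold minors
  rw [← Matrix.det_mul]
  congr 1
  ext a b
  simp [Matrix.mul_apply, Finset.sum_apply]

theorem det_law {m : ℕ} (Ω : KSec n P m) {x : Fin (N + 1) → ℂ} (hx : x ∈ cone P) {v : Fin n → Fin (N + 1) → ℂ} (hv : ∀ a, v a ∈ conTan P x)
    (A : Matrix (Fin n) (Fin n) ℂ) : Ω.toFun x (fun i => ∑ j, A i j • v j) = A.det ^ m * Ω.toFun x v := by
  obtain ⟨i, hi⟩ : ∃ i, x i ≠ 0 := by
    by_contra h
    push Not at h
    exact hx.1 (funext h)
  obtain ⟨k, B, hB, h⟩ := Ω.regular i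
  have h1 := h x hx (fun i => ∑ j, A i j • v j) fun a => (conTan P x).sum_mem fun j _ => (conTan P x).smul_mem _ (hv j)
  have h2 := h x hx v hv
  rw [minors_comb, eval_smul_of_homog (hB.map _), ← h2] at h1
  have h3 : x i ^ k ≠ 0 := pow_ne_zero _ hi
  apply mul_left_cancel₀ h3
  rw [h1]
  ring

/-- a partial derivative is a tangent vector -/
theorem tan_fderiv {d : ℕ} {X : Set (EN N)} {φ : Vd d → EN N} {p : Vd d} (hφ : AnalyticAt ℂ φ p) (hX : ∀ᶠ y in 𝓝 p, φ y ∈ X) (v : Vd d) :
    Tan X (φ p) (fderiv ℂ φ p v) := by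
  have h1 : AnalyticAt ℂ (fun t : ℂ => p + t • v) 0 := by fun_prop
  have h2 : (fun t : ℂ => p + t • v) 0 = p := by simp
  have h3 : AnalyticAt ℂ φ ((fun t : ℂ => p + t • v) 0) := by rw [h2]; exact hφ
  refine ⟨fun t => φ (p + t • v), ⟨AnalyticAt.comp (g := φ) (f := fun t : ℂ => p + t • v) h3 h1, ?_⟩, by simp, ?_⟩
  · have h4 : Tendsto (fun t : ℂ => p + t • v) (𝓝 0) (𝓝 p) := by
      have := h1.continuousAt.tendsto
      rwa [zero_smul, add_zero] at this
    exact h4.eventually hX
  · have h5 : HasDerivAt (fun t : ℂ => p + t • v) v 0 := by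
      have := ((hasDerivAt_id (0 : ℂ)).smul_const v).const_add p
      simpa using this
    have h6 : HasFDerivAt φ (fderiv ℂ φ p) ((fun t : ℂ => p + t • v) 0) := by
      rw [h2]
      exact hφ.differentiableAt.hasFDerivAt
    exact (h6.comp_hasDerivAt 0 h5).deriv

/-- **The section as a form on the cone in the Euclidean space.** -/
noncomputable def toTForm {m : ℕ} (d : ℕ) (Ω : KSec n P m) : TForm n d (coneE P) m where
  toFun x v := Ω.toFun ((LE N).symm x) fun a => (LE N).symm (v a)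
  add_smul x hx v hv c := by
    have h1 : (fun a => (LE N).symm (v a + c a • x)) = fun a => (LE N).symm (v a) + c a • (LE N).symm x := by
      funext a
      rw [map_add, map_smul]
    rw [h1]
    exact Ω.add_smul _ hx _ (fun a => conTan_of_tan (hv a)) c
  det x hx v hv A := by
    have h1 : (fun a => (LE N).symm (∑ j, A a j • v j)) = fun a => ∑ j, A a j • (LE N).symm (v j) := by
      funext a
      rw [map_sum]
      exact Finset.sum_congr rfl fun j _ => map_smul _ _ _
    rw [h1]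
    exact det_law Ω hx (fun a => conTan_of_tan (hv a)) A
  scale x hx v hv c hc := by
    have h1 : (fun a => (LE N).symm (c • v a)) = fun a => c • (LE N).symm (v a) := by
      funext a
      rw [map_smul]
    rw [h1, map_smul]
    exact Ω.scale _ hx _ (fun a => conTan_of_tan (hv a)) c hc
  analytic φ p w hφ hφX := by
    have hpX : φ p ∈ coneE P := hφX.self_of_nhds
    obtain ⟨i, hi⟩ := exists_ne hpX
    obtain ⟨k, A, -, h⟩ := Ω.regular i
    have hL : ∀ {G : Type} [NormedAddCommGroup G] [NormedSpace ℂ G] {f : G → EN N} {q : G}, AnalyticAt ℂ f q →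
        AnalyticAt ℂ (fun y => (LE N).symm (f y)) q := fun hf => ((LE N).symm : EN N →L[ℂ] (Fin (N + 1) → ℂ)).analyticAt _ |>.comp hf
    have hx : AnalyticAt ℂ (fun y : Vd d × (Fin n → Vd d) => (LE N).symm (φ y.1)) (p, w) :=
      hL (AnalyticAt.comp (g := φ) (f := fun y : Vd d × (Fin n → Vd d) => y.1) hφ analyticAt_fst)
    have h2a : ∀ a, AnalyticAt ℂ (fun y : Vd d × (Fin n → Vd d) => y.2 a) (p, w) := fun a =>
      ((ContinuousLinearMap.proj a : (Fin n → Vd d) →L[ℂ] Vd d).analyticAt _).comp analyticAt_snd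
    have hv : ∀ a, AnalyticAt ℂ (fun y : Vd d × (Fin n → Vd d) => (LE N).symm (fderiv ℂ φ y.1 (y.2 a))) (p, w) := fun a =>
      hL (analyticAt_fderiv_apply (a := fun y : Vd d × (Fin n → Vd d) => y.1) (b := fun y => y.2 a) hφ analyticAt_fst (h2a a))
    have hmin : AnalyticAt ℂ (fun y : Vd d × (Fin n → Vd d) => minors fun a => (LE N).symm (fderiv ℂ φ y.1 (y.2 a))) (p, w) := by
      refine analyticAt_pi_iff.2 fun q => ?_
      unfold minors
      simp only [Matrix.det_apply, Matrix.of_apply]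
      refine Finset.analyticAt_fun_sum _ fun s _ => ?_
      have h1 : AnalyticAt ℂ (fun y : Vd d × (Fin n → Vd d) => ∏ a, (LE N).symm (fderiv ℂ φ y.1 (y.2 (s a))) (q a)) (p, w) :=
        Finset.analyticAt_fun_prod _ fun a _ => (analyticAt_pi_iff.1 (hv (s a))) (q a)
      have h2 : (fun y : Vd d × (Fin n → Vd d) => Equiv.Perm.sign s • ∏ a, (LE N).symm (fderiv ℂ φ y.1 (y.2 (s a))) (q a)) =
          fun y => ((Equiv.Perm.sign s : ℤ) : ℂ) * ∏ a, (LE N).symm (fderiv ℂ φ y.1 (y.2 (s a))) (q a) := by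
        funext y
        rw [Units.smul_def, zsmul_eq_mul]
      rw [h2]
      exact analyticAt_const.mul h1
    have hE := analyticAt_eval_map A hx hmin
    have hxi : AnalyticAt ℂ (fun y : Vd d × (Fin n → Vd d) => (LE N).symm (φ y.1) i ^ k) (p, w) := ((analyticAt_pi_iff.1 hx) i).pow k
    have hne : (LE N).symm (φ (p, w).1) i ^ k ≠ 0 := pow_ne_zero _ hi
    refine (hE.div hxi hne).congr ?_
    have hc : Tendsto (fun y : Vd d × (Fin n → Vd d) => y.1) (𝓝 (p, w)) (𝓝 p) := continuous_fst.tendsto _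
    filter_upwards [hc.eventually (hφX.eventually_nhds.and hφ.eventually_analyticAt), hxi.continuousAt.eventually_ne hne] with y hy hyi
    obtain ⟨hyX, hyφ⟩ := hy
    have h7 := h _ hyX.self_of_nhds (fun a => (LE N).symm (fderiv ℂ φ y.1 (y.2 a))) fun a => conTan_of_tan (tan_fderiv hyφ hyX (y.2 a))
    show eval _ _ / ((LE N).symm (φ y.1) i ^ k) = _
    rw [← h7]
    exact mul_div_cancel_left₀ _ hyi

/-- **Layer 1.** -/
theorem exists_tform (d : ℕ) (h : CanonicalAmple n P) : ∃ (m J : ℕ) (Ω : Fin J → TForm n d (coneE P) m), 1 ≤ m ∧ TNoZero Ω := by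
  obtain ⟨m, J, Ω, hm, hΩ⟩ := h
  refine ⟨m, J, fun k => toTForm d (Ω k), hm, fun x hx v hv hli => ?_⟩
  refine hΩ ((LE N).symm x) hx (fun a => (LE N).symm (v a)) (fun a => conTan_of_tan (hv a)) ?_
  have h1 := hli.map' ((LE N).symm : EN N →ₗ[ℂ] (Fin (N + 1) → ℂ)) (LinearMap.ker_eq_bot.2 (LE N).symm.injective)
  have h2 : (⇑((LE N).symm : EN N →ₗ[ℂ] (Fin (N + 1) → ℂ)) ∘ (Fin.cons x v : Fin (n + 1) → EN N)) =
      (Fin.cons ((LE N).symm x) (fun a => (LE N).symm (v a)) : Fin (n + 1) → Fin (N + 1) → ℂ) := by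
    funext j
    refine Fin.cases ?_ (fun a => ?_) j
    · rfl
    · rfl
  rw [← h2]
  exact h1

end Pool.Agent.H14.TF
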