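import Pool.Agent.H13.SM.Surf

/-!
# H14 TF Defs: the canonical bundle is ample

`P` is a homogeneous prime ideal, `X` the smooth projective variety of dimension `n` given by it, `cone P` its affine cone without the vertex and `conTan P x` the tangent space of
the cone at `x` (so `T_x X = conTan P x / ℂ x`).  An element of the fibre of `K_X^m` at `x` is a function of `n` tangent vectors which is a homogeneous polynomial of degree `m` in
their `n × n` minors.
-/

set_option autoImplicit false

open MvPolynomial
open Pool.Agent.H13.SM (conTan cone)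

noncomputable section

namespace Pool.Agent.H14.TF

variable {N : ℕ}

/-- the `n × n` minors of the vectors `v 0, ..., v (n - 1)` -/
def minors {n : ℕ} {ι R : Type*} [CommRing R] (v : Fin n → ι → R) (p : Fin n → ι) : R := (Matrix.of fun a b => v a (p b)).det

/-- A section of `K_X^m(-1)`, where `X` is the projective variety of dimension `n` given by `P`: a function of a point `x` of the cone and `n` tangent vectors of the cone, which is
given, up to powers of `x i`, by a polynomial in `x` and the `n × n` minors of the vectors, homogeneous of degree `m` in the minors, and which descends to `X`. -/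
structure KSec (n : ℕ) (P : Ideal (MvPolynomial (Fin (N + 1)) ℂ)) (m : ℕ) where
  /-- the section -/
  toFun : (Fin (N + 1) → ℂ) → (Fin n → Fin (N + 1) → ℂ) → ℂ
  regular : ∀ i, ∃ (e : ℕ) (A : MvPolynomial (Fin n → Fin (N + 1)) (MvPolynomial (Fin (N + 1)) ℂ)), A.IsHomogeneous m ∧
    ∀ x ∈ cone P, ∀ v : Fin n → Fin (N + 1) → ℂ, (∀ a, v a ∈ conTan P x) → x i ^ e * toFun x v = eval (minors v) (map (eval x) A)
  add_smul : ∀ x ∈ cone P, ∀ v : Fin n → Fin (N + 1) → ℂ, (∀ a, v a ∈ conTan P x) → ∀ c : Fin n → ℂ, toFun x (fun a => v a + c a • x) = toFun x v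
  scale : ∀ x ∈ cone P, ∀ v : Fin n → Fin (N + 1) → ℂ, (∀ a, v a ∈ conTan P x) → ∀ c : ℂ, c ≠ 0 → c * toFun (c • x) (fun a => c • v a) = toFun x v

/-- The canonical bundle `K_X` of the smooth projective variety `X` of dimension `n` given by `P` is ample: for some `m ≥ 1` there are finitely many sections of
`K_X^m(-1)` without a common zero. -/
def CanonicalAmple (n : ℕ) (P : Ideal (MvPolynomial (Fin (N + 1)) ℂ)) : Prop :=
  ∃ (m J : ℕ) (Ω : Fin J → KSec n P m), 1 ≤ m ∧ ∀ x ∈ cone P, ∀ v : Fin n → Fin (N + 1) → ℂ, (∀ a, v a ∈ conTan P x) →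
    LinearIndependent ℂ (Fin.cons x v : Fin (n + 1) → Fin (N + 1) → ℂ) → ∃ k, (Ω k).toFun x v ≠ 0

end Pool.Agent.H14.TF
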