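import Pool.Agent.H14.TF.Spec
import Pool.Agent.H17LG.Variety
import Pool.Agent.H17LG.ModLREG
import Pool.Agent.H17R.Point
import Pool.Agent.H23.Bridge

/-!
# H14 TF Gen: a variety with ample canonical bundle is of general type

`K = FunField P`, `ξ i = x i / x i₀`, `z` a transcendence basis, `b` the basis `d z` of `Ω[K⁄ℂ]`, `Δ` the value of a section of `K_X^m(-1)` at `ξ` and the `n` derivatives of `ξ`.  The
`f i = Δ * ξ i` are pluricanonical forms without poles, and the `ξ i` generate `K`.
-/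

set_option autoImplicit false

open MvPolynomial
open Pool.Agent.H13.SM (conTan cone)
open Pool.Agent.H62.FC (Homog)
open Pool.Agent.H17LG.Variety (FunField IsLogGeneralType PoleAtMost ratio)
open Pool.Agent.H17GT (coordFun functionField)
open Pool.Agent.H23.Fano (PrimeDivisorOver Form)
open Pool.Agent.H23 (dualDer dualDer_apply exists_basis_kaehler ιMulti_eq fc fc_ιMulti exists_int valRing ofFano exists_divisorCoords)
open Pool.Agent.AD.G (coneK conTanK der_mem_conTanK)

noncomputable section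

namespace Pool.Agent.H14.TF

variable {N n d : ℕ} {P : Ideal (MvPolynomial (Fin (N + 1)) ℂ)}

variable {K : Type} [Field K] [Algebra ℂ K]

/-- if all the maximal minors vanish, there is a vector in the kernel -/
private theorem Gen_ker {F : Type*} [Field F] {r J : ℕ} {M : Fin J → Fin r → F}
    (h : ∀ j : Fin r → Fin J, (Matrix.of fun s k => M (j s) k).det = 0) :
    ∃ y : Fin r → F, y ≠ 0 ∧ ∀ k, ∑ l, M k l * y l = 0 := by
  by_cases htop : Submodule.span F (Set.range M) = ⊤
  · exfalso
    obtain ⟨f, hf, -, hli⟩ := Submodule.exists_fun_fin_finrank_span_eq F (Set.range M)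
    have hr : Module.finrank F (Submodule.span F (Set.range M)) = r := by
      rw [htop, finrank_top, Module.finrank_fin_fun]
    choose j hj using hf
    have h3 : LinearIndependent F (Matrix.of fun s k => M (j ((finCongr hr).symm s)) k).row := by
      have h4 := hli.comp _ (finCongr hr).symm.injective
      have h5 : (Matrix.of fun s k => M (j ((finCongr hr).symm s)) k).row = f ∘ (finCongr hr).symm := by
        funext s
        exact hj _
      rw [h5]
      exact h4
    rw [Matrix.linearIndependent_rows_iff_isUnit, Matrix.isUnit_iff_isUnit_det] at h3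
    exact h3.ne_zero (h (fun s => j ((finCongr hr).symm s)))
  · obtain ⟨f, hf0, hf⟩ := Submodule.exists_le_ker_of_lt_top _ (lt_top_iff_ne_top.2 htop)
    refine ⟨fun l => f (fun j => if l = j then 1 else 0), ?_, ?_⟩
    · intro h0
      apply hf0
      refine LinearMap.ext fun x => ?_
      rw [LinearMap.pi_apply_eq_sum_univ f]
      refine Finset.sum_eq_zero fun i _ => ?_
      have h1 := congrFun h0 i
      simp only [Pi.zero_apply] at h1
      rw [h1, smul_zero]
    · intro k
      have h1 : f (M k) = 0 := hf (Submodule.subset_span ⟨k, rfl⟩)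
      rw [LinearMap.pi_apply_eq_sum_univ f] at h1
      exact h1

private theorem Gen_li (b : Module.Basis (Fin d) K Ω[K⁄ℂ]) {ξ : Fin (N + 1) → K}
    (hgen : IntermediateField.adjoin ℂ (Set.range ξ) = ⊤) {c : Fin d → K}
    (h : ∀ i, ∑ a, c a * dualDer b a (ξ i) = 0) : c = 0 := by
  have h1 : ∀ f : K, ∑ a, c a * dualDer b a f = 0 := by
    intro f
    have hf : f ∈ IntermediateField.adjoin ℂ (Set.range ξ) := by
      rw [hgen]
      trivial
    induction hf using IntermediateField.adjoin_induction with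
    | mem x hx =>
      obtain ⟨i, rfl⟩ := hx
      exact h i
    | algebraMap x =>
      refine Finset.sum_eq_zero fun a _ => ?_
      rw [Derivation.map_algebraMap, mul_zero]
    | add x y _ _ hx hy => simp only [map_add, mul_add, Finset.sum_add_distrib, hx, hy, add_zero]
    | inv x _ hx =>
      have h2 : ∀ a, c a * dualDer b a x⁻¹ = -x⁻¹ ^ 2 * (c a * dualDer b a x) := by
        intro a
        rw [Derivation.leibniz_inv, smul_eq_mul]
        ring
      simp_rw [h2, ← Finset.mul_sum, hx, mul_zero]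
    | mul x y _ _ hx hy =>
      have h2 : ∀ a, c a * dualDer b a (x * y) =
          x * (c a * dualDer b a y) + y * (c a * dualDer b a x) := by
        intro a
        rw [Derivation.leibniz, smul_eq_mul, smul_eq_mul]
        ring
      simp_rw [h2, Finset.sum_add_distrib, ← Finset.mul_sum, hx, hy, mul_zero, add_zero]
  have h2 : ∀ ω : Ω[K⁄ℂ], ∑ a, c a * b.repr ω a = 0 := by
    intro ω
    have hω : ω ∈ Submodule.span K (Set.range (KaehlerDifferential.D ℂ K)) := by
      rw [KaehlerDifferential.span_range_derivation]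
      trivial
    induction hω using Submodule.span_induction with
    | mem x hx =>
      obtain ⟨f, rfl⟩ := hx
      exact h1 f
    | zero => simp
    | add x y _ _ hx hy =>
      simp only [map_add, Finsupp.add_apply, mul_add, Finset.sum_add_distrib, hx, hy, add_zero]
    | smul t x _ hx =>
      have h3 : ∀ a, c a * b.repr (t • x) a = t * (c a * b.repr x a) := by
        intro a
        rw [map_smul, Finsupp.smul_apply, smul_eq_mul]
        ring
      simp_rw [h3, ← Finset.mul_sum, hx, mul_zero]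
  funext a
  have h3 := h2 (b a)
  simp only [Module.Basis.repr_self, Finsupp.single_apply, mul_ite, mul_one, mul_zero,
    Finset.sum_ite_eq, Finset.mem_univ, if_true] at h3
  exact h3

private theorem main_expand {d : ℕ} {t : Fin d → K} (b : Module.Basis (Fin d) K Ω[K⁄ℂ]) (hb : ∀ i, b i = KaehlerDifferential.D ℂ K (t i))
    (X : Derivation ℂ K K) (f : K) : X f = ∑ i, X (t i) * dualDer b i f := by
  have h1 : ∀ g, X g = X.liftKaehlerDifferential (KaehlerDifferential.D ℂ K g) := fun g => by
    rw [Derivation.liftKaehlerDifferential_comp_D]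
  rw [h1 f, ← b.sum_repr (KaehlerDifferential.D ℂ K f), map_sum]
  refine Finset.sum_congr rfl fun i _ => ?_
  rw [map_smul, hb, ← h1, smul_eq_mul, dualDer_apply, mul_comm]

omit [Algebra ℂ K] in
private theorem main_quot (v : AddValuation K (WithTop ℤ)) {x t : K} (ht : t ≠ 0) (h : v t ≤ v x) : 0 ≤ v (x / t) := by
  rw [div_eq_mul_inv]
  by_cases hx : x = 0
  · rw [hx, zero_mul, v.map_zero]
    exact le_top
  obtain ⟨q, hq⟩ := exists_int v (mul_ne_zero hx (inv_ne_zero ht))
  obtain ⟨p, hp⟩ := exists_int v ht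
  have h1 : v (x * t⁻¹) + v t = v x := by rw [← v.map_mul, mul_assoc, inv_mul_cancel₀ ht, mul_one]
  rw [← h1, hq, hp, ← WithTop.coe_add, WithTop.coe_le_coe] at h
  rw [hq]
  exact_mod_cast (by omega : (0 : ℤ) ≤ q)

omit [Algebra ℂ K] in
/-- a coordinate with minimal order -/
private theorem main_min (v : AddValuation K (WithTop ℤ)) {ξ : Fin (N + 1) → K} {i₀ : Fin (N + 1)} (h0 : ξ i₀ = 1) :
    ∃ j, ξ j ≠ 0 ∧ ∀ k, 0 ≤ v (ξ k / ξ j) := by
  obtain ⟨j, -, hj⟩ := Finset.exists_min_image Finset.univ (fun k => v (ξ k)) ⟨i₀, Finset.mem_univ _⟩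
  have hj0 : ξ j ≠ 0 := by
    intro h
    have h1 := hj i₀ (Finset.mem_univ _)
    rw [h, v.map_zero, h0, v.map_one] at h1
    exact absurd (top_le_iff.1 h1) (by simp)
  exact ⟨j, hj0, fun k => main_quot v hj0 (hj k (Finset.mem_univ _))⟩

/-- a variety of positive dimension has a non-zero coordinate -/
private theorem main_coord {Q : Ideal (MvPolynomial (Fin (N + 1)) ℂ)} [Q.IsPrime] {k : ℕ} {z : Fin (k + 1) → FunField Q}
    (hz : IsTranscendenceBasis ℂ z) : ∃ i, coordFun Q i ≠ 0 := by
  by_contra hcon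
  push Not at hcon
  have h1 : functionField Q = ⊥ := by
    rw [functionField, IntermediateField.adjoin_eq_bot_iff]
    rintro f ⟨i, j, rfl⟩
    rw [hcon i, zero_div]
    exact zero_mem _
  have h2 : Transcendental ℂ (z 0) := hz.1.transcendental 0
  apply h2
  set y : functionField Q := z 0 with hy
  have h3 : (y : FractionRing (MvPolynomial (Fin (N + 1)) ℂ ⧸ Q)) ∈
      (⊥ : IntermediateField ℂ (FractionRing (MvPolynomial (Fin (N + 1)) ℂ ⧸ Q))) := by
    rw [← h1]
    exact y.2
  obtain ⟨c, hc⟩ := IntermediateField.mem_bot.mp h3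
  have h4 : y = algebraMap ℂ (functionField Q) c := Subtype.ext hc.symm
  have h5 : IsAlgebraic ℂ y := by
    rw [h4]
    exact isAlgebraic_algebraMap c
  exact h5

/-- **Layer 2.** -/
theorem generalType_of_ample [P.IsPrime] (hP : Homog P) (h : CanonicalAmple n P) (hn : 1 ≤ n) {z : Fin n → FunField P} (hz : IsTranscendenceBasis ℂ z) :
    IsLogGeneralType (K := FunField P) (k := n) fun _ => False := by
  classical
  obtain ⟨k, rfl⟩ : ∃ k, n = k + 1 := ⟨n - 1, by omega⟩
  obtain ⟨m, J, Ω, hm, hΩ⟩ := h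
  have hess : Algebra.EssFiniteType ℂ (FunField P) := Pool.Agent.H17GT.essFiniteType_functionField P
  -- the generic point
  obtain ⟨i₀, hi₀⟩ : ∃ i₀, coordFun P i₀ ≠ 0 := main_coord hz
  obtain ⟨ξ, hξ⟩ : ∃ ξ : Fin (N + 1) → FunField P, ξ = fun i => ratio P i i₀ := ⟨_, rfl⟩
  have hξ0 : ξ i₀ = 1 := by
    rw [hξ]
    exact Pool.Agent.H17R.ratio_self hi₀
  have hgen : IntermediateField.adjoin ℂ (Set.range ξ) = ⊤ := by
    rw [hξ]
    exact Pool.Agent.H17R.adjoin_ratio hi₀
  have hcone : ξ ∈ coneK P (FunField P) := by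
    refine ⟨fun h => ?_, fun R hR => ?_⟩
    · rw [h] at hξ0
      exact zero_ne_one hξ0
    · rw [hξ, ← MvPolynomial.sum_homogeneousComponent R, map_sum]
      refine Finset.sum_eq_zero fun n _ => ?_
      exact (Pool.Agent.H17R.gen_eq_zero_iff hi₀ (MvPolynomial.homogeneousComponent_isHomogeneous n R)).2 (hP R hR n)
  obtain ⟨b, hb⟩ := exists_basis_kaehler hz
  -- the derivatives of the generic point
  obtain ⟨v, hv⟩ : ∃ v : Fin (k + 1) → Fin (N + 1) → FunField P, v = fun a i => dualDer b a (ξ i) := ⟨_, rfl⟩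
  have hvt : ∀ a, v a ∈ conTanK P ξ := fun a => by
    rw [hv]
    exact der_mem_conTanK hcone (dualDer b a)
  have hminor : ∃ p : Fin (k + 1 + 1) → Fin (N + 1), (Matrix.of fun a c => (Fin.cons ξ v : Fin (k + 1 + 1) → Fin (N + 1) → FunField P) a (p c)).det ≠ 0 := by
    by_contra hcon
    push Not at hcon
    obtain ⟨y, hy, hy0⟩ := Gen_ker (M := fun (i : Fin (N + 1)) (a : Fin (k + 1 + 1)) => (Fin.cons ξ v : Fin (k + 1 + 1) → Fin (N + 1) → FunField P) a i) (by
      intro j
      rw [← Matrix.det_transpose]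
      exact hcon j)
    have h1 : ∀ i, ξ i * y 0 + ∑ a, v a i * y a.succ = 0 := by
      intro i
      have h2 := hy0 i
      rw [Fin.sum_univ_succ] at h2
      simpa only [Fin.cons_zero, Fin.cons_succ] using h2
    have h2 : y 0 = 0 := by
      have h3 := h1 i₀
      rw [hξ0, one_mul, Finset.sum_eq_zero (fun a _ => by rw [hv]; simp only; rw [hξ0, Derivation.map_one_eq_zero, zero_mul]), add_zero] at h3
      exact h3
    have h3 : (fun a : Fin (k + 1) => y a.succ) = 0 := by
      refine Gen_li b hgen fun i => ?_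
      have h4 := h1 i
      rw [h2, mul_zero, zero_add, hv] at h4
      rw [← h4]
      exact Finset.sum_congr rfl fun a _ => mul_comm _ _
    apply hy
    funext a
    refine Fin.cases h2 (fun a => ?_) a
    exact congrFun h3 a
  obtain ⟨p, hp⟩ := hminor
  obtain ⟨s, hs⟩ := exists_val_ne hΩ hcone hvt (i₀ := i₀) (by rw [hξ0]; exact one_ne_zero) hp
  obtain ⟨Δ, hΔ⟩ : ∃ Δ, Δ = (Ω s).val i₀ ξ v := ⟨_, rfl⟩
  have hΔ0 : Δ ≠ 0 := by
    rw [hΔ]
    exact hs
  have hω0 : Form.mk (1 : FunField P) z ≠ 0 := by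
    intro h0
    have h1 : fc b ((1 : FunField P) • exteriorPower.ιMulti (FunField P) (k + 1) fun i => KaehlerDifferential.D ℂ (FunField P) (z i)) = 0 := by
      rw [show ((1 : FunField P) • exteriorPower.ιMulti (FunField P) (k + 1) fun i => KaehlerDifferential.D ℂ (FunField P) (z i)) = 0 from h0, map_zero]
    rw [map_smul, fc_ιMulti, smul_eq_mul] at h1
    simp only [← hb, b.det_self, mul_one] at h1
    exact one_ne_zero h1
  refine ⟨m, hm, Form.mk 1 z, hω0, N, fun i => Δ * ξ (Equiv.swap 0 i₀ i), ?_, ?_, ?_⟩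
  · change Δ * ξ (Equiv.swap 0 i₀ 0) ≠ 0
    rw [Equiv.swap_apply_left, hξ0, mul_one]
    exact hΔ0
  · intro i E
    refine ⟨fun _ => ?_, fun h => h.elim⟩
    obtain ⟨g, b', hb', hg0, hg, hreg⟩ := exists_divisorCoords hz (ofFano E)
    change ∀ i, 0 ≤ E.ord (g i) at hg
    change ∀ i f, 0 ≤ E.ord f → 0 ≤ E.ord (dualDer b' i f) at hreg
    obtain ⟨γ, hγ⟩ : ∃ γ, γ = b'.det fun i => KaehlerDifferential.D ℂ (FunField P) (z i) := ⟨_, rfl⟩
    have hη : Form.mk 1 g ∈ Pool.Agent.H23.Fano.regularForms (k + 1) E.localRing := by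
      refine AddSubgroup.subset_closure ⟨1, g, ?_, hg, rfl⟩
      change 0 ≤ E.ord 1
      rw [E.ord.map_one]
    have hω : Form.mk (1 : FunField P) z = γ • Form.mk 1 g := by
      change ((1 : FunField P) • exteriorPower.ιMulti (FunField P) (k + 1) fun i => KaehlerDifferential.D ℂ (FunField P) (z i)) =
        γ • ((1 : FunField P) • exteriorPower.ιMulti (FunField P) (k + 1) fun i => KaehlerDifferential.D ℂ (FunField P) (g i))
      rw [one_smul, one_smul, ιMulti_eq b', ← hγ]
      simp only [hb']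
    refine ⟨γ, Form.mk 1 g, hη, hω, ?_⟩
    rw [Nat.cast_zero, add_zero]
    obtain ⟨G, hG⟩ : ∃ G : Matrix (Fin (k + 1)) (Fin (k + 1)) (FunField P), G = Matrix.of fun c a => dualDer b' c (z a) := ⟨_, rfl⟩
    have hGγ : G.det = γ := by
      rw [hγ, Module.Basis.det_apply, hG]
      rfl
    have hv' : (fun c i => dualDer b' c (ξ i)) = fun c => ∑ a, G c a • v a := by
      funext c i
      rw [main_expand b hb (dualDer b' c) (ξ i), Finset.sum_apply]
      refine Finset.sum_congr rfl fun a _ => ?_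
      rw [hG, hv]
      rfl
    have hdet := (Ω s).val_det i₀ ξ v G
    rw [← hv', hGγ, ← hΔ] at hdet
    obtain ⟨i₁, hi₁, hmin⟩ := main_min E.ord hξ0
    have hint := (Ω s).val_integral hP E.ord E.ord_const hcone (i := i₀) (by rw [hξ0]; exact one_ne_zero) hi₁ hmin (D := fun c => dualDer b' c) hreg
    rw [hdet] at hint
    have hfin : Δ * ξ (Equiv.swap 0 i₀ i) * γ ^ m = (ξ i₁ * (γ ^ m * Δ)) * (ξ (Equiv.swap 0 i₀ i) / ξ i₁) := by
      field_simp
    rw [hfin]
    exact (valRing E.ord E.ord_const).mul_mem hint (hmin _)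
  · have h1 : (Set.range fun i => Δ * ξ (Equiv.swap 0 i₀ i) / (Δ * ξ (Equiv.swap 0 i₀ 0))) = Set.range ξ := by
      ext y
      constructor
      · rintro ⟨i, rfl⟩
        refine ⟨Equiv.swap 0 i₀ i, ?_⟩
        change _ = Δ * ξ (Equiv.swap 0 i₀ i) / (Δ * ξ (Equiv.swap 0 i₀ 0))
        rw [Equiv.swap_apply_left, hξ0, mul_one, mul_div_cancel_left₀ _ hΔ0]
      · rintro ⟨i, rfl⟩
        refine ⟨Equiv.swap 0 i₀ i, ?_⟩
        simp only [Equiv.swap_apply_self, Equiv.swap_apply_left]
        rw [hξ0, mul_one, mul_div_cancel_left₀ _ hΔ0]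
    rw [h1, hgen]
    exact ⟨fun x => isAlgebraic_algebraMap (⟨x, IntermediateField.mem_top⟩ : (⊤ : IntermediateField ℂ (FunField P)))⟩

end Pool.Agent.H14.TF
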