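import Pool.Agent.H14.TF.Defs
import Pool.Agent.AD.G.Spec

/-!
# H14 TF Spec: specialisation and values of the sections at points with coordinates in a field

* `specN`: a point `ξ` of the cone with coordinates in `K` and `n` tangent vectors are specialised to complex ones, so that a given polynomial does not vanish.
* `transferN`: identities for complex points hold at `K`-points.
* `KSec.val`: the value of a section at a `K`-point; `val_indep`, `val_add_smul`, `val_scale`, `val_det`, `val_integral`.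
-/

set_option autoImplicit false

open MvPolynomial
open Pool.Agent.H13.SM (conTan cone)
open Pool.Agent.H62.FC (Homog)
open Pool.Agent.AD.G (exists_spec coneK conTanK der_mem_conTanK coneK_smul cone_smulC conTan_smulC self_mem_conTan)

noncomputable section

namespace Pool.Agent.H14.TF

variable {N n : ℕ} {K : Type} [Field K] [Algebra ℂ K] {P : Ideal (MvPolynomial (Fin (N + 1)) ℂ)}

/-- the index set of the variables -/
abbrev Ix (N n : ℕ) (σ : Type) : Type := Fin (N + 1) ⊕ ((Fin n × Fin (N + 1)) ⊕ σ)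

/-- the point with the coordinates `x`, `v`, `u` -/
def pt {S σ : Type} (x : Fin (N + 1) → S) (v : Fin n → Fin (N + 1) → S) (u : σ → S) : Ix N n σ → S := Sum.elim x (Sum.elim (fun p => v p.1 p.2) u)

/-- **Specialisation.** -/
theorem specN {σ : Type} [Finite σ] {ξ : Fin (N + 1) → K} {v : Fin n → Fin (N + 1) → K} {u : σ → K} (hξ : ξ ∈ coneK P K) (hv : ∀ a, v a ∈ conTanK P ξ)
    {i₀ : Fin (N + 1)} (h0 : ξ i₀ ≠ 0) {H₀ : MvPolynomial (Ix N n σ) ℂ} (hH₀ : aeval (pt ξ v u) H₀ ≠ 0) :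
    ∃ (x : Fin (N + 1) → ℂ) (w : Fin n → Fin (N + 1) → ℂ) (t : σ → ℂ), x ∈ cone P ∧ x i₀ ≠ 0 ∧ (∀ a, w a ∈ conTan P x) ∧ eval (pt x w t) H₀ ≠ 0 ∧
      ∀ H : MvPolynomial (Ix N n σ) ℂ, aeval (pt ξ v u) H = 0 → eval (pt x w t) H = 0 := by
  classical
  have := Fintype.ofFinite σ
  obtain ⟨y, hy⟩ : ∃ y : Ix N n σ → K, y = pt ξ v u := ⟨_, rfl⟩
  rw [← hy] at hH₀
  obtain ⟨R, φ, hR, hhR, hφ⟩ := exists_spec (Finset.univ.image y) (mul_ne_zero h0 hH₀)
  have hyR : ∀ a, y a ∈ R := fun a => hR _ (Finset.mem_image_of_mem _ (Finset.mem_univ a))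
  obtain ⟨z, hz⟩ : ∃ z : Ix N n σ → R, ∀ a, (z a : K) = y a := ⟨fun a => ⟨y a, hyR a⟩, fun a => rfl⟩
  have hξz : ∀ i, ((z (Sum.inl i) : R) : K) = ξ i := fun i => by rw [hz, hy]; rfl
  have hvz : ∀ a i, ((z (Sum.inr (Sum.inl (a, i))) : R) : K) = v a i := fun a i => by rw [hz, hy]; rfl
  have hinc : ∀ (τ : Type) (q : τ → R) (Q : MvPolynomial τ ℂ), ((aeval q Q : R) : K) = aeval (fun i => (q i : K)) Q := by
    intro τ q Q
    exact comp_aeval_apply (φ := R.val) q Q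
  have hsp : ∀ (τ : Type) (q : τ → R) (Q : MvPolynomial τ ℂ), φ (aeval q Q) = eval (fun i => φ (q i)) Q := by
    intro τ q Q
    rw [comp_aeval_apply, ← coe_aeval_eq_eval]
    rfl
  obtain ⟨ξ', hξ'⟩ : ∃ ξ' : Fin (N + 1) → R, ξ' = fun i => z (Sum.inl i) := ⟨_, rfl⟩
  have e1 : (fun i => (ξ' i : K)) = ξ := by
    funext i
    rw [hξ']
    exact hξz i
  have hP0 : ∀ Q ∈ P, eval (fun i => φ (ξ' i)) Q = 0 := by
    intro Q hQ
    rw [← hsp]
    have h1 : aeval ξ' Q = (0 : R) := by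
      apply Subtype.ext
      rw [hinc, e1, hξ.2 Q hQ]
      rfl
    rw [h1, map_zero]
  have htan : ∀ (t : Fin (N + 1) → R), (∀ Q ∈ P, ∑ i, (t i : K) * aeval ξ (pderiv i Q) = 0) →
      (fun i => φ (t i)) ∈ conTan P (fun i => φ (ξ' i)) := by
    intro t ht Q hQ
    have h1 : ∑ i, t i * aeval ξ' (pderiv i Q) = (0 : R) := by
      apply Subtype.ext
      have h2 := ht Q hQ
      rw [← e1] at h2
      rw [← R.coe_val, map_sum]
      simp only [map_mul]
      rw [map_zero, ← h2]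
      refine Finset.sum_congr rfl fun i _ => ?_
      rw [R.coe_val, hinc]
    have h2 := congrArg φ h1
    rw [map_sum, map_zero] at h2
    rw [← h2]
    refine Finset.sum_congr rfl fun i _ => ?_
    rw [map_mul, hsp]
  have hmul : φ ⟨ξ i₀ * aeval y H₀, hhR⟩ = φ (ξ' i₀) * eval (fun a => φ (z a)) H₀ := by
    have h1 : (⟨ξ i₀ * aeval y H₀, hhR⟩ : R) = ξ' i₀ * aeval z H₀ := by
      apply Subtype.ext
      show ξ i₀ * aeval y H₀ = (ξ' i₀ : K) * ((aeval z H₀ : R) : K)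
      rw [hinc, show (fun a => (z a : K)) = y from funext hz, hξ']
      simp only
      rw [hξz]
    rw [h1, map_mul, hsp]
  rw [hmul] at hφ
  have hx0 : φ (ξ' i₀) ≠ 0 := left_ne_zero_of_mul hφ
  have hpt : pt (fun i => φ (ξ' i)) (fun a i => φ (z (Sum.inr (Sum.inl (a, i))))) (fun s => φ (z (Sum.inr (Sum.inr s)))) = fun a => φ (z a) := by
    funext a
    rcases a with a | (⟨a, b⟩ | a)
    · simp only [pt, Sum.elim_inl, hξ']
    · simp only [pt, Sum.elim_inl, Sum.elim_inr]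
    · simp only [pt, Sum.elim_inr]
  refine ⟨fun i => φ (ξ' i), fun a i => φ (z (Sum.inr (Sum.inl (a, i)))), fun s => φ (z (Sum.inr (Sum.inr s))), ⟨fun h => hx0 (congrFun h i₀), hP0⟩, hx0, fun a => ?_, ?_, fun H hH => ?_⟩
  · refine htan (fun i => z (Sum.inr (Sum.inl (a, i)))) fun Q hQ => ?_
    have := hv a Q hQ
    rw [← this]
    exact Finset.sum_congr rfl fun i _ => by rw [hvz]
  · rw [hpt]
    exact right_ne_zero_of_mul hφ
  · rw [hpt, ← hsp]
    have h1 : aeval z H = (0 : R) := by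
      apply Subtype.ext
      rw [hinc, show (fun a => (z a : K)) = y from funext hz, hy, hH]
      rfl
    rw [h1, map_zero]

/-- **The transfer principle.** -/
theorem transferN {σ : Type} [Finite σ] {ξ : Fin (N + 1) → K} {v : Fin n → Fin (N + 1) → K} {u : σ → K} (hξ : ξ ∈ coneK P K) (hv : ∀ a, v a ∈ conTanK P ξ)
    {i₀ : Fin (N + 1)} (h0 : ξ i₀ ≠ 0) (H : MvPolynomial (Ix N n σ) ℂ)
    (hH : ∀ x ∈ cone P, x i₀ ≠ 0 → ∀ v : Fin n → Fin (N + 1) → ℂ, (∀ a, v a ∈ conTan P x) → ∀ u : σ → ℂ, eval (pt x v u) H = 0) :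
    aeval (pt ξ v u) H = 0 := by
  by_contra hne
  obtain ⟨x, w, t, hx, hx0, hw, h1, -⟩ := specN hξ hv h0 hne
  exact h1 (hH x hx hx0 w hw t)

/-! ### The polynomial of a section -/

/-- the value of the polynomial `A` at `ξ`, `v` -/
def evn {S : Type*} [CommRing S] [Algebra ℂ S] (ξ : Fin (N + 1) → S) (v : Fin n → Fin (N + 1) → S)
    (A : MvPolynomial (Fin n → Fin (N + 1)) (MvPolynomial (Fin (N + 1)) ℂ)) : S :=
  eval (minors v) (map (aeval ξ).toRingHom A)

theorem minors_map {S S' : Type*} [CommRing S] [CommRing S'] (ψ : S →+* S') (v : Fin n → Fin (N + 1) → S) :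
    (fun p => ψ (minors v p)) = minors fun a i => ψ (v a i) := by
  funext p
  unfold minors
  rw [RingHom.map_det]
  rfl

/-- naturality -/
theorem evn_map {S S' : Type*} [CommRing S] [Algebra ℂ S] [CommRing S'] [Algebra ℂ S'] (ψ : S →ₐ[ℂ] S')
    (ξ : Fin (N + 1) → S) (v : Fin n → Fin (N + 1) → S) (A : MvPolynomial (Fin n → Fin (N + 1)) (MvPolynomial (Fin (N + 1)) ℂ)) :
    ψ (evn ξ v A) = evn (fun i => ψ (ξ i)) (fun a i => ψ (v a i)) A := by
  unfold evn
  rw [eval_map, eval_map]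
  have h1 := eval₂_comp_left (ψ : S →+* S') (aeval (R := ℂ) ξ).toRingHom (minors v) A
  have h2 : (ψ : S →+* S') ∘ minors v = minors fun a i => ψ (v a i) := minors_map (ψ : S →+* S') v
  have h3 : (ψ : S →+* S').comp (aeval (R := ℂ) ξ).toRingHom = (aeval (R := ℂ) fun i => ψ (ξ i)).toRingHom := by
    have h4 : ψ.comp (aeval ξ) = aeval (R := ℂ) fun i => ψ (ξ i) := comp_aeval ξ ψ
    have h5 := congrArg AlgHom.toRingHom h4
    exact h5
  rw [h2, h3] at h1
  exact h1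

theorem evn_complex (x : Fin (N + 1) → ℂ) (v : Fin n → Fin (N + 1) → ℂ) (A : MvPolynomial (Fin n → Fin (N + 1)) (MvPolynomial (Fin (N + 1)) ℂ)) :
    evn x v A = eval (minors v) (map (eval x) A) := by
  unfold evn
  congr 2

/-- `A` represents the function `f` on `x i ≠ 0` -/
def Rep (P : Ideal (MvPolynomial (Fin (N + 1)) ℂ)) (f : (Fin (N + 1) → ℂ) → (Fin n → Fin (N + 1) → ℂ) → ℂ) (i : Fin (N + 1)) (e : ℕ)
    (A : MvPolynomial (Fin n → Fin (N + 1)) (MvPolynomial (Fin (N + 1)) ℂ)) : Prop :=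
  ∀ x ∈ cone P, ∀ v : Fin n → Fin (N + 1) → ℂ, (∀ a, v a ∈ conTan P x) → x i ^ e * f x v = evn x v A

section aux

variable {f : (Fin (N + 1) → ℂ) → (Fin n → Fin (N + 1) → ℂ) → ℂ} {i j : Fin (N + 1)} {e e' : ℕ}
  {A B : MvPolynomial (Fin n → Fin (N + 1)) (MvPolynomial (Fin (N + 1)) ℂ)} {ξ : Fin (N + 1) → K} {v : Fin n → Fin (N + 1) → K}

/-- the generic point -/
private def gx (N n : ℕ) (σ : Type) : Fin (N + 1) → MvPolynomial (Ix N n σ) ℂ := fun k => X (Sum.inl k)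

private def gv (N n : ℕ) (σ : Type) : Fin n → Fin (N + 1) → MvPolynomial (Ix N n σ) ℂ := fun a k => X (Sum.inr (Sum.inl (a, k)))

private def gu (N n : ℕ) (σ : Type) : σ → MvPolynomial (Ix N n σ) ℂ := fun s => X (Sum.inr (Sum.inr s))

private theorem indep_aux (hA : Rep P f i e A) (hB : Rep P f j e' B) (hξ : ξ ∈ coneK P K) (hv : ∀ a, v a ∈ conTanK P ξ)
    (hi : ξ i ≠ 0) : evn ξ v A * ξ j ^ e' = evn ξ v B * ξ i ^ e := by
  have gen : ∀ {S : Type} [CommRing S] [Algebra ℂ S] (x : Fin (N + 1) → S) (v : Fin n → Fin (N + 1) → S) (u : PEmpty → S),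
      (aeval (pt x v u) : _ →ₐ[ℂ] S) (evn (gx N n PEmpty) (gv N n PEmpty) A * gx N n PEmpty j ^ e' - evn (gx N n PEmpty) (gv N n PEmpty) B * gx N n PEmpty i ^ e) =
        evn x v A * x j ^ e' - evn x v B * x i ^ e := by
    intro S _ _ x v u
    rw [map_sub, map_mul, map_mul, evn_map, evn_map, map_pow, map_pow]
    simp only [gx, gv, aeval_X, pt, Sum.elim_inl, Sum.elim_inr]
  have key := transferN (u := fun a : PEmpty => (a.elim : K)) hξ hv hi
    (evn (gx N n PEmpty) (gv N n PEmpty) A * gx N n PEmpty j ^ e' - evn (gx N n PEmpty) (gv N n PEmpty) B * gx N n PEmpty i ^ e) (by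
      intro x hx _ v hv u
      have h1 := gen x v u
      rw [aeval_eq_eval] at h1
      rw [h1, ← hA x hx v hv, ← hB x hx v hv]
      ring)
  rw [gen] at key
  exact sub_eq_zero.1 key

private theorem add_aux (hP : Homog P) (hA : Rep P f i e A)
    (hadd : ∀ x ∈ cone P, ∀ v : Fin n → Fin (N + 1) → ℂ, (∀ a, v a ∈ conTan P x) → ∀ c : Fin n → ℂ, f x (fun a => v a + c a • x) = f x v)
    (hξ : ξ ∈ coneK P K) (hv : ∀ a, v a ∈ conTanK P ξ) (hi : ξ i ≠ 0) (c : Fin n → K) : evn ξ (fun a => v a + c a • ξ) A = evn ξ v A := by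
  have gen : ∀ {S : Type} [CommRing S] [Algebra ℂ S] (x : Fin (N + 1) → S) (v : Fin n → Fin (N + 1) → S) (u : Fin n → S),
      (aeval (pt x v u) : _ →ₐ[ℂ] S)
        (evn (gx N n (Fin n)) (fun a => gv N n (Fin n) a + gu N n (Fin n) a • gx N n (Fin n)) A - evn (gx N n (Fin n)) (gv N n (Fin n)) A) =
        evn x (fun a => v a + u a • x) A - evn x v A := by
    intro S _ _ x v u
    rw [map_sub, evn_map, evn_map]
    simp only [gx, gv, gu, aeval_X, pt, Sum.elim_inl, Sum.elim_inr, Pi.add_apply, Pi.smul_apply, smul_eq_mul, map_add, map_mul]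
    rfl
  have key := transferN (u := c) hξ hv hi
    (evn (gx N n (Fin n)) (fun a => gv N n (Fin n) a + gu N n (Fin n) a • gx N n (Fin n)) A - evn (gx N n (Fin n)) (gv N n (Fin n)) A) (by
      intro x hx _ v hv u
      have h1 := gen x v u
      rw [aeval_eq_eval] at h1
      have hxx := self_mem_conTan hP hx
      rw [h1, ← hA x hx v hv, ← hA x hx _ (fun a => (conTan P x).add_mem (hv a) ((conTan P x).smul_mem _ hxx)), hadd x hx v hv]
      ring)
  rw [gen] at key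
  exact sub_eq_zero.1 key

private theorem scale_aux (hP : Homog P) (hA : Rep P f i e A)
    (hsc : ∀ x ∈ cone P, ∀ v : Fin n → Fin (N + 1) → ℂ, (∀ a, v a ∈ conTan P x) → ∀ c : ℂ, c ≠ 0 → c * f (c • x) (fun a => c • v a) = f x v)
    (hξ : ξ ∈ coneK P K) (hv : ∀ a, v a ∈ conTanK P ξ) (hi : ξ i ≠ 0) {c : K} (hc : c ≠ 0) :
    c * evn (c • ξ) (fun a => c • v a) A = c ^ e * evn ξ v A := by
  have gen : ∀ {S : Type} [CommRing S] [Algebra ℂ S] (x : Fin (N + 1) → S) (v : Fin n → Fin (N + 1) → S) (u : Unit → S),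
      (aeval (pt x v u) : _ →ₐ[ℂ] S)
        (gu N n Unit () * (gu N n Unit () * evn (gu N n Unit () • gx N n Unit) (fun a => gu N n Unit () • gv N n Unit a) A -
          gu N n Unit () ^ e * evn (gx N n Unit) (gv N n Unit) A)) =
        u () * (u () * evn (u () • x) (fun a => u () • v a) A - u () ^ e * evn x v A) := by
    intro S _ _ x v u
    rw [map_mul, map_sub, map_mul, map_mul, map_pow, evn_map, evn_map]
    simp only [gx, gv, gu, aeval_X, pt, Sum.elim_inl, Sum.elim_inr, Pi.smul_apply, smul_eq_mul, map_mul]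
    rfl
  have key := transferN (u := fun _ : Unit => c) hξ hv hi
    (gu N n Unit () * (gu N n Unit () * evn (gu N n Unit () • gx N n Unit) (fun a => gu N n Unit () • gv N n Unit a) A -
          gu N n Unit () ^ e * evn (gx N n Unit) (gv N n Unit) A)) (by
      intro x hx _ v hv u
      have h1 := gen x v u
      rw [aeval_eq_eval] at h1
      rw [h1]
      rcases eq_or_ne (u ()) 0 with h0 | h0
      · rw [h0, zero_mul]
      · rw [← hA x hx v hv, ← hA _ (cone_smulC hP hx h0) _ (fun a => conTan_smulC hP (hv a) _), ← hsc x hx v hv _ h0, Pi.smul_apply, smul_eq_mul]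
        ring)
  rw [gen] at key
  exact sub_eq_zero.1 ((mul_eq_zero.1 key).resolve_left hc)

/-- the polynomial of a section has integral values at integral points -/
private theorem evn_integral (ord : AddValuation K (WithTop ℤ)) (hc : ∀ c : ℂ, 0 ≤ ord (algebraMap ℂ K c))
    (hξ : ∀ k, 0 ≤ ord (ξ k)) (hv : ∀ a k, 0 ≤ ord (v a k)) : 0 ≤ ord (evn ξ v A) := by
  obtain ⟨O, hO⟩ : ∃ O : Subalgebra ℂ K, ∀ a, a ∈ O ↔ 0 ≤ ord a := by
    refine ⟨{ carrier := {a | 0 ≤ ord a}, mul_mem' := ?_, add_mem' := ?_, algebraMap_mem' := hc }, fun a => Iff.rfl⟩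
    · intro a b ha hb
      have ha' : 0 ≤ ord a := ha
      have hb' : 0 ≤ ord b := hb
      show 0 ≤ ord (a * b)
      rw [ord.map_mul]
      exact add_nonneg ha' hb'
    · intro a b ha hb
      exact le_trans (le_min ha hb) (ord.map_add a b)
  have h1 := evn_map O.val (fun k => (⟨ξ k, (hO _).2 (hξ k)⟩ : O)) (fun a k => (⟨v a k, (hO _).2 (hv a k)⟩ : O)) A
  have h2 : evn ξ v A = O.val (evn (fun k => (⟨ξ k, (hO _).2 (hξ k)⟩ : O)) (fun a k => (⟨v a k, (hO _).2 (hv a k)⟩ : O)) A) := h1.symm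
  rw [h2, ← hO]
  exact Subtype.property _

end aux

/-- the value at a `K`-point -/
def KSec.val {m : ℕ} (Ω : KSec n P m) (i : Fin (N + 1)) (ξ : Fin (N + 1) → K) (v : Fin n → Fin (N + 1) → K) : K :=
  evn ξ v (Ω.regular i).choose_spec.choose / ξ i ^ (Ω.regular i).choose

theorem KSec.rep {m : ℕ} (Ω : KSec n P m) (i : Fin (N + 1)) : Rep P Ω.toFun i (Ω.regular i).choose (Ω.regular i).choose_spec.choose := by
  intro x hx v hv
  rw [evn_complex]
  exact (Ω.regular i).choose_spec.choose_spec.2 x hx v hv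

theorem KSec.val_indep {m : ℕ} (Ω : KSec n P m) {ξ : Fin (N + 1) → K} {v : Fin n → Fin (N + 1) → K} (hξ : ξ ∈ coneK P K) (hv : ∀ a, v a ∈ conTanK P ξ)
    {i j : Fin (N + 1)} (hi : ξ i ≠ 0) (hj : ξ j ≠ 0) : Ω.val i ξ v = Ω.val j ξ v := by
  unfold KSec.val
  rw [div_eq_div_iff (pow_ne_zero _ hi) (pow_ne_zero _ hj)]
  exact indep_aux (Ω.rep i) (Ω.rep j) hξ hv hi

theorem KSec.val_add_smul {m : ℕ} (Ω : KSec n P m) (hP : Homog P) {ξ : Fin (N + 1) → K} {v : Fin n → Fin (N + 1) → K} (hξ : ξ ∈ coneK P K)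
    (hv : ∀ a, v a ∈ conTanK P ξ) {i : Fin (N + 1)} (hi : ξ i ≠ 0) (c : Fin n → K) : Ω.val i ξ (fun a => v a + c a • ξ) = Ω.val i ξ v := by
  unfold KSec.val
  rw [add_aux hP (Ω.rep i) Ω.add_smul hξ hv hi]

theorem KSec.val_scale {m : ℕ} (Ω : KSec n P m) (hP : Homog P) {ξ : Fin (N + 1) → K} {v : Fin n → Fin (N + 1) → K} (hξ : ξ ∈ coneK P K)
    (hv : ∀ a, v a ∈ conTanK P ξ) {i : Fin (N + 1)} (hi : ξ i ≠ 0) {c : K} (hc : c ≠ 0) : c * Ω.val i (c • ξ) (fun a => c • v a) = Ω.val i ξ v := by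
  unfold KSec.val
  rw [← mul_div_assoc, scale_aux hP (Ω.rep i) Ω.scale hξ hv hi hc, Pi.smul_apply, smul_eq_mul, mul_pow, mul_div_mul_left _ _ (pow_ne_zero _ hc)]

theorem eval_smul_homog {ι S : Type*} [CommRing S] {d : ℕ} {Q : MvPolynomial ι S} (hQ : Q.IsHomogeneous d) (c : S) (x : ι → S) :
    eval (c • x) Q = c ^ d * eval x Q := by
  rw [eval_eq, eval_eq, Finset.mul_sum]
  refine Finset.sum_congr rfl fun m hm => ?_
  have h1 : ∏ i ∈ m.support, (c • x) i ^ m i = c ^ d * ∏ i ∈ m.support, x i ^ m i := by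
    simp only [Pi.smul_apply, smul_eq_mul, mul_pow, Finset.prod_mul_distrib]
    rw [Finset.prod_pow_eq_pow_sum]
    have h2 := hQ (mem_support_iff.1 hm)
    rw [Finsupp.weight_apply, Finsupp.sum] at h2
    simp only [Pi.one_apply, smul_eq_mul, mul_one] at h2
    rw [h2]
  rw [h1]
  ring

/-- the determinant law -/
theorem KSec.val_det {m : ℕ} (Ω : KSec n P m) (i : Fin (N + 1)) (ξ : Fin (N + 1) → K) (v : Fin n → Fin (N + 1) → K) (G : Matrix (Fin n) (Fin n) K) :
    Ω.val i ξ (fun a => ∑ b, G a b • v b) = G.det ^ m * Ω.val i ξ v := by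
  have h1 : minors (fun a => ∑ b, G a b • v b) = G.det • minors v := by
    funext p
    rw [Pi.smul_apply, smul_eq_mul]
    unfold minors
    rw [← Matrix.det_mul]
    congr 1
    ext a b
    simp [Matrix.mul_apply, Finset.sum_apply]
  unfold KSec.val evn
  rw [h1, eval_smul_homog ((Ω.regular i).choose_spec.choose_spec.1.map _), mul_div_assoc]

/-- the values of the section on the derivatives of a `K`-point are integral for a valuation, up to the twist -/
theorem KSec.val_integral {m : ℕ} (Ω : KSec n P m) (hP : Homog P) (ord : AddValuation K (WithTop ℤ)) (hc : ∀ c : ℂ, 0 ≤ ord (algebraMap ℂ K c))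
    {ξ : Fin (N + 1) → K} (hξ : ξ ∈ coneK P K) {i j : Fin (N + 1)} (hi : ξ i ≠ 0) (hj : ξ j ≠ 0) (hmin : ∀ k, 0 ≤ ord (ξ k / ξ j))
    {D : Fin n → Derivation ℂ K K} (hD : ∀ a f, 0 ≤ ord f → 0 ≤ ord (D a f)) :
    0 ≤ ord (ξ j * Ω.val i ξ (fun a k => D a (ξ k))) := by
  obtain ⟨η, hη⟩ : ∃ η : Fin (N + 1) → K, η = (ξ j)⁻¹ • ξ := ⟨_, rfl⟩
  have hcj : (ξ j)⁻¹ ≠ 0 := inv_ne_zero hj
  have hηk : ∀ k, η k = ξ k / ξ j := fun k => by
    rw [hη, Pi.smul_apply, smul_eq_mul]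
    ring
  have hηc : η ∈ coneK P K := by
    rw [hη]
    exact coneK_smul hP hξ hcj
  have hηi : η i ≠ 0 := by
    rw [hηk]
    exact div_ne_zero hi hj
  have hηj : η j = 1 := by
    rw [hηk]
    exact div_self hj
  have hder : (fun a => ((ξ j)⁻¹ • fun k => D a (ξ k))) = fun a => (fun k => D a (η k)) + (-(D a (ξ j)⁻¹ * ξ j)) • η := by
    funext a k
    rw [Pi.add_apply, Pi.smul_apply, Pi.smul_apply, hη, Pi.smul_apply, smul_eq_mul, smul_eq_mul, smul_eq_mul, Derivation.leibniz,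
      smul_eq_mul, smul_eq_mul]
    have : ξ j * (ξ j)⁻¹ = 1 := mul_inv_cancel₀ hj
    linear_combination (D a (ξ j)⁻¹ * ξ k) * this
  have h1 := Ω.val_scale hP hξ (fun a => der_mem_conTanK hξ (D a)) hi hcj
  rw [← hη, hder, Ω.val_add_smul hP hηc (fun a => der_mem_conTanK hηc (D a)) hηi,
    Ω.val_indep hηc (fun a => der_mem_conTanK hηc (D a)) hηi (j := j) (by rw [hηj]; exact one_ne_zero)] at h1
  unfold KSec.val at h1 ⊢
  rw [hηj, one_pow, div_one] at h1
  rw [← h1, ← mul_assoc, mul_inv_cancel₀ hj, one_mul]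
  have hη0 : ∀ k, 0 ≤ ord (η k) := fun k => by
    rw [hηk]
    exact hmin k
  exact evn_integral ord hc hη0 (fun a k => hD a _ (hη0 k))

/-- some section does not vanish at the generic point -/
theorem exists_val_ne {m J : ℕ} {Ω : Fin J → KSec n P m} (hΩ : ∀ x ∈ cone P, ∀ v : Fin n → Fin (N + 1) → ℂ, (∀ a, v a ∈ conTan P x) →
      LinearIndependent ℂ (Fin.cons x v : Fin (n + 1) → Fin (N + 1) → ℂ) → ∃ k, (Ω k).toFun x v ≠ 0)
    {ξ : Fin (N + 1) → K} {v : Fin n → Fin (N + 1) → K} (hξ : ξ ∈ coneK P K) (hv : ∀ a, v a ∈ conTanK P ξ) {i₀ : Fin (N + 1)} (h0 : ξ i₀ ≠ 0)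
    {p : Fin (n + 1) → Fin (N + 1)} (hp : (Matrix.of fun a b => (Fin.cons ξ v : Fin (n + 1) → Fin (N + 1) → K) a (p b)).det ≠ 0) :
    ∃ k, (Ω k).val i₀ ξ v ≠ 0 := by
  by_contra hcon
  push Not at hcon
  obtain ⟨H₀, hH₀⟩ : ∃ H₀ : MvPolynomial (Ix N n PEmpty) ℂ, H₀ = (Matrix.of fun a b => (Fin.cons (gx N n PEmpty) (gv N n PEmpty) :
    Fin (n + 1) → Fin (N + 1) → MvPolynomial (Ix N n PEmpty) ℂ) a (p b)).det := ⟨_, rfl⟩
  have gen : ∀ {S : Type} [CommRing S] [Algebra ℂ S] (x : Fin (N + 1) → S) (v : Fin n → Fin (N + 1) → S) (u : PEmpty → S),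
      (aeval (pt x v u) : _ →ₐ[ℂ] S) H₀ = (Matrix.of fun a b => (Fin.cons x v : Fin (n + 1) → Fin (N + 1) → S) a (p b)).det := by
    intro S _ _ x v u
    rw [hH₀, AlgHom.map_det]
    congr 1
    ext a b
    simp only [AlgHom.mapMatrix_apply, Matrix.map_apply, Matrix.of_apply]
    refine Fin.cases ?_ (fun a => ?_) a
    · simp only [Fin.cons_zero, gx, aeval_X, pt, Sum.elim_inl]
    · simp only [Fin.cons_succ, gv, aeval_X, pt, Sum.elim_inl, Sum.elim_inr]
  have gen2 : ∀ (A : MvPolynomial (Fin n → Fin (N + 1)) (MvPolynomial (Fin (N + 1)) ℂ)) {S : Type} [CommRing S] [Algebra ℂ S] (x : Fin (N + 1) → S)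
      (v : Fin n → Fin (N + 1) → S) (u : PEmpty → S),
      (aeval (pt x v u) : _ →ₐ[ℂ] S) (evn (gx N n PEmpty) (gv N n PEmpty) A) = evn x v A := by
    intro A S _ _ x v u
    rw [evn_map]
    simp only [gx, gv, aeval_X, pt, Sum.elim_inl, Sum.elim_inr]
  obtain ⟨x, w, t, hx, hx0, hw, h1, h2⟩ := specN (u := fun a : PEmpty => (a.elim : K)) hξ hv h0 (H₀ := H₀) (by
    rw [gen]
    exact hp)
  have h3 := gen x w t
  rw [aeval_eq_eval] at h3
  rw [h3] at h1
  have hli : LinearIndependent ℂ (Fin.cons x w : Fin (n + 1) → Fin (N + 1) → ℂ) := by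
    have h4 : LinearIndependent ℂ (Matrix.of fun a b => (Fin.cons x w : Fin (n + 1) → Fin (N + 1) → ℂ) a (p b)).row := by
      rw [Matrix.linearIndependent_rows_iff_isUnit, Matrix.isUnit_iff_isUnit_det]
      exact isUnit_iff_ne_zero.2 h1
    have h5 : (Matrix.of fun a b => (Fin.cons x w : Fin (n + 1) → Fin (N + 1) → ℂ) a (p b)).row =
        (LinearMap.funLeft ℂ ℂ p) ∘ (Fin.cons x w : Fin (n + 1) → Fin (N + 1) → ℂ) := by
      funext a b
      rfl
    rw [h5] at h4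
    exact LinearIndependent.of_comp _ h4
  obtain ⟨k, hk⟩ := hΩ x hx w hw hli
  apply hk
  have h4 := hcon k
  unfold KSec.val at h4
  rw [div_eq_zero_iff, or_iff_left (pow_ne_zero _ h0)] at h4
  have h5 := h2 (evn (gx N n PEmpty) (gv N n PEmpty) ((Ω k).regular i₀).choose_spec.choose) (by rw [gen2]; exact h4)
  have h6 := gen2 ((Ω k).regular i₀).choose_spec.choose x w t
  rw [aeval_eq_eval] at h6
  rw [h6, ← (Ω k).rep i₀ x hx w hw] at h5
  exact (mul_eq_zero.1 h5).resolve_left (pow_ne_zero _ hx0)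

end Pool.Agent.H14.TF
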